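import Mathlib
import Pool.Agent.Helper79.GL4.GoalsR

/-!
# Packet Q5 (MP_27a5f8_al): the character of degree 4 of `GL₂(5)`
-/

set_option linter.unusedVariables false

namespace Pool.Agent.Helper41.GL4Q5

open Module
open scoped ComplexOrder

/-- Moebius action -/
def mob (a b c d : ZMod 5) : Option (ZMod 5) → Option (ZMod 5)
  | none => if c = 0 then none else some (a * c ^ 3)
  | some x => if c * x + d = 0 then none else some ((a * x + b) * (c * x + d) ^ 3)

/-- The five involutions without fixed points. -/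
def sg (i : ZMod 5) : Option (ZMod 5) → Option (ZMod 5)
  | none => some i
  | some x => if x = i then none else some (2 * i - x)

set_option maxRecDepth 100000 in
theorem chk : ∀ a b c d : ZMod 5, a * d - b * c ≠ 0 → ∀ i, ∃ j, ∀ x : Option (ZMod 5),
    mob a b c d (sg i x) = sg j (mob a b c d x) := by
  decide +kernel

instance : Fact (Nat.Prime 5) := ⟨by norm_num⟩

lemma inv5 (x : ZMod 5) (h : x ≠ 0) : x⁻¹ = x ^ 3 := by
  have h1 : x * x ^ 3 = 1 := by revert x; decide
  exact inv_eq_of_mul_eq_one_right h1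

/-- the group -/
abbrev GG := GL (Fin 2) (ZMod 5)

lemma smul_eq (g : GG) (x : OnePoint (ZMod 5)) :
    g • x = (mob (g 0 0) (g 0 1) (g 1 0) (g 1 1) x : Option (ZMod 5)) := by
  cases x with
  | infty =>
    rw [OnePoint.smul_infty_eq_ite]
    show _ = if g 1 0 = 0 then none else some (g 0 0 * g 1 0 ^ 3)
    split_ifs with h
    · rfl
    · rw [div_eq_mul_inv, inv5 _ h]; rfl
  | coe x =>
    rw [OnePoint.smul_some_eq_ite]
    show _ = if g 1 0 * x + g 1 1 = 0 then none
      else some ((g 0 0 * x + g 0 1) * (g 1 0 * x + g 1 1) ^ 3)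
    split_ifs with h
    · rfl
    · rw [div_eq_mul_inv, inv5 _ h]; rfl

/-- the five involutions, on the projective line -/
def sp (i : ZMod 5) (x : OnePoint (ZMod 5)) : OnePoint (ZMod 5) := sg i x

lemma ex (g : GG) (i : ZMod 5) : ∃ j, ∀ x : OnePoint (ZMod 5), g • sp i x = sp j (g • x) := by
  have hd : g 0 0 * g 1 1 - g 0 1 * g 1 0 ≠ 0 := by
    have := g.det_ne_zero
    rwa [Matrix.det_fin_two] at this
  obtain ⟨j, hj⟩ := chk _ _ _ _ hd i
  refine ⟨j, fun x => ?_⟩
  rw [smul_eq, smul_eq]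
  exact hj x

lemma sp_inj (i j : ZMod 5) (h : sp i OnePoint.infty = sp j OnePoint.infty) : i = j :=
  Option.some_injective _ h

/-- the action on the five involutions -/
noncomputable def act (g : GG) (i : ZMod 5) : ZMod 5 := (ex g i).choose

lemma act_spec (g : GG) (i : ZMod 5) (x : OnePoint (ZMod 5)) :
    g • sp i x = sp (act g i) (g • x) := (ex g i).choose_spec x

lemma act_uniq (g : GG) (i j : ZMod 5)
    (h : ∀ x : OnePoint (ZMod 5), g • sp i x = sp j (g • x)) : act g i = j := by
  have h1 := act_spec g i (g⁻¹ • OnePoint.infty)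
  have h2 := h (g⁻¹ • OnePoint.infty)
  rw [smul_inv_smul] at h1 h2
  exact sp_inj _ _ (h1.symm.trans h2)

lemma act_one (i : ZMod 5) : act 1 i = i :=
  act_uniq 1 i i (fun x => by rw [one_smul, one_smul])

lemma act_mul (g h : GG) (i : ZMod 5) : act (g * h) i = act g (act h i) :=
  act_uniq (g * h) i _ (fun x => by rw [mul_smul, mul_smul, act_spec h i x, act_spec g])

/-- the translation -/
noncomputable def tr : GG := Matrix.GeneralLinearGroup.mkOfDetNeZero !![1, 1; 0, 1]
  (by rw [Matrix.det_fin_two_of]; decide)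

/-- the doubling -/
noncomputable def db : GG := Matrix.GeneralLinearGroup.mkOfDetNeZero !![2, 0; 0, 1]
  (by rw [Matrix.det_fin_two_of]; decide)

lemma act_tr (i : ZMod 5) : act tr i = i + 1 := by
  refine act_uniq tr i _ (fun x => ?_)
  rw [smul_eq, smul_eq]
  show mob 1 1 0 1 (sg i x) = sg (i + 1) (mob 1 1 0 1 x)
  revert i x
  show ∀ (i : ZMod 5) (x : Option (ZMod 5)), mob 1 1 0 1 (sg i x) = sg (i + 1) (mob 1 1 0 1 x)
  decide +kernel

lemma act_db (i : ZMod 5) : act db i = 2 * i := by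
  refine act_uniq db i _ (fun x => ?_)
  rw [smul_eq, smul_eq]
  show mob 2 0 0 1 (sg i x) = sg (2 * i) (mob 2 0 0 1 x)
  revert i x
  show ∀ (i : ZMod 5) (x : Option (ZMod 5)), mob 2 0 0 1 (sg i x) = sg (2 * i) (mob 2 0 0 1 x)
  decide +kernel

/-! ### the representation -/

/-- the space of functions with sum zero -/
def W : Submodule ℂ (ZMod 5 → ℂ) where
  carrier := {f | ∑ i, f i = 0}
  zero_mem' := by simp
  add_mem' := by
    intro f g hf hg
    simp only [Set.mem_ofPred_eq] at *
    simp only [Pi.add_apply, Finset.sum_add_distrib, hf, hg, add_zero]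
  smul_mem' := by
    intro c f hf
    simp only [Set.mem_ofPred_eq] at *
    simp only [Pi.smul_apply, smul_eq_mul, ← Finset.mul_sum, hf, mul_zero]

lemma mem_W (f : ZMod 5 → ℂ) : f ∈ W ↔ ∑ i, f i = 0 := Iff.rfl

section rep
variable {G : Type} [Group G] (ψ : G →* GG)

lemma act_sum (g : GG) (f : ZMod 5 → ℂ) : ∑ i, f (act g i) = ∑ i, f i := by
  have hb : Function.Bijective (act g) := by
    refine ⟨fun i j h => ?_, fun j => ⟨act g⁻¹ j, ?_⟩⟩
    · have := congrArg (act g⁻¹) h
      rwa [← act_mul, ← act_mul, inv_mul_cancel, act_one, act_one] at this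
    · rw [← act_mul, mul_inv_cancel, act_one]
  exact Fintype.sum_bijective _ hb _ _ (fun i => rfl)

/-- the linear map of a group element -/
noncomputable def lm (g : G) : W →ₗ[ℂ] W where
  toFun f := ⟨fun i => f.1 (act (ψ g)⁻¹ i), by
    rw [mem_W, act_sum]; exact f.2⟩
  map_add' f g := rfl
  map_smul' c f := rfl

/-- the representation -/
noncomputable def rho : Representation ℂ G W where
  toFun := lm ψ
  map_one' := by
    ext f i
    show f.1 (act (ψ 1)⁻¹ i) = f.1 i
    rw [map_one, inv_one, act_one]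
  map_mul' g h := by
    ext f i
    show f.1 (act (ψ (g * h))⁻¹ i) = f.1 (act (ψ h)⁻¹ (act (ψ g)⁻¹ i))
    rw [map_mul, mul_inv_rev, act_mul]

lemma rho_apply (g : G) (f : W) (i : ZMod 5) : (rho ψ g f).1 i = f.1 (act (ψ g)⁻¹ i) := rfl

/-- the function `4` at `j`, `-1` elsewhere -/
noncomputable def dl (j : ZMod 5) : W := ⟨fun i => (if i = j then 5 else 0) - 1, by
  rw [mem_W, Finset.sum_sub_distrib, Finset.sum_ite_eq' Finset.univ j, if_pos (Finset.mem_univ j)]
  simp [ZMod.card]⟩

lemma dl_apply (j i : ZMod 5) : (dl j).1 i = (if i = j then 5 else 0) - 1 := rfl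

lemma act_tr_inv (i : ZMod 5) : act tr⁻¹ i = i - 1 := by
  have h : act tr (i - 1) = i := by rw [act_tr]; ring
  have h2 := congrArg (act tr⁻¹) h
  rw [← act_mul, inv_mul_cancel, act_one] at h2
  exact h2.symm

lemma act_db_inv (i : ZMod 5) : act db⁻¹ i = 3 * i := by
  have h : act db (3 * i) = i := by
    rw [act_db, ← mul_assoc, show (2 * 3 : ZMod 5) = 1 from by decide, one_mul]
  have h2 := congrArg (act db⁻¹) h
  rw [← act_mul, inv_mul_cancel, act_one] at h2
  exact h2.symm

lemma rho_gt {gt : G} (hgt : ψ gt = tr) (f : W) (n : ℕ) (i : ZMod 5) :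
    (rho ψ (gt ^ n) f).1 i = f.1 (i - n) := by
  induction n generalizing f i with
  | zero => simp
  | succ n ih =>
    rw [pow_succ', map_mul]
    show (rho ψ gt (rho ψ (gt ^ n) f)).1 i = _
    rw [rho_apply, hgt, act_tr_inv, ih]
    have h : i - 1 - (n : ZMod 5) = i - ((n + 1 : ℕ) : ZMod 5) := by push_cast; ring
    rw [h]

lemma rho_gd {gd : G} (hgd : ψ gd = db) (f : W) (i : ZMod 5) :
    (rho ψ gd f).1 i = f.1 (3 * i) := by
  rw [rho_apply, hgd, act_db_inv]

lemma sum5 (f : ZMod 5 → ℂ) : ∑ i, f i = f 0 + f 1 + f 2 + f 3 + f 4 := Fin.sum_univ_five f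

lemma avg {gd : G} (hgd : ψ gd = db) (f : W) :
    f + rho ψ gd f + rho ψ gd (rho ψ gd f) + rho ψ gd (rho ψ gd (rho ψ gd f)) =
      f.1 0 • dl 0 := by
  have h0 := f.2
  rw [mem_W, sum5] at h0
  apply Subtype.ext
  funext i
  show f.1 i + (rho ψ gd f).1 i + (rho ψ gd (rho ψ gd f)).1 i +
    (rho ψ gd (rho ψ gd (rho ψ gd f))).1 i = f.1 0 * (dl 0).1 i
  rw [rho_gd ψ hgd, rho_gd ψ hgd, rho_gd ψ hgd, rho_gd ψ hgd, rho_gd ψ hgd, rho_gd ψ hgd,
    dl_apply]
  have h5 : ∀ i : ZMod 5, i = 0 ∨ i = 1 ∨ i = 2 ∨ i = 3 ∨ i = 4 := by decide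
  have e1 : (3 * 1 : ZMod 5) = 3 := by decide
  have e2 : (3 * 2 : ZMod 5) = 1 := by decide
  have e3 : (3 * 3 : ZMod 5) = 4 := by decide
  have e4 : (3 * 4 : ZMod 5) = 2 := by decide
  have n1 : (1 : ZMod 5) ≠ 0 := by decide
  have n2 : (2 : ZMod 5) ≠ 0 := by decide
  have n3 : (3 : ZMod 5) ≠ 0 := by decide
  have n4 : (4 : ZMod 5) ≠ 0 := by decide
  rcases h5 i with h | h | h | h | h <;> subst h
  · simp; ring
  · simp only [e1, e2, e3, e4, if_neg n1]; linear_combination h0
  · simp only [e1, e2, e3, e4, if_neg n2]; linear_combination h0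
  · simp only [e1, e2, e3, e4, if_neg n3]; linear_combination h0
  · simp only [e1, e2, e3, e4, if_neg n4]; linear_combination h0

lemma expand (f : W) : f = ∑ j, (f.1 j / 5) • dl j := by
  have h0 := f.2
  rw [mem_W] at h0
  apply Subtype.ext
  funext i
  have h1 : (∑ j, (f.1 j / 5) • dl j).1 i = ∑ j, (f.1 j / 5) * ((if i = j then 5 else 0) - 1) := by
    rw [AddSubmonoidClass.coe_finsetSum, Finset.sum_apply]
    rfl
  rw [h1]
  have h2 : ∀ j, (f.1 j / 5) * ((if i = j then (5 : ℂ) else 0) - 1) =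
      (if i = j then f.1 j else 0) - f.1 j / 5 := by
    intro j; split_ifs <;> ring
  rw [Finset.sum_congr rfl (fun j _ => h2 j), Finset.sum_sub_distrib,
    Finset.sum_ite_eq Finset.univ i, if_pos (Finset.mem_univ i), ← Finset.sum_div, h0]
  simp

lemma dl_ne : dl 0 ≠ 0 := by
  intro h
  have : (dl 0).1 0 = 0 := by rw [h]; rfl
  rw [dl_apply] at this
  norm_num at this

theorem irr (hs : Function.Surjective ψ) : (rho ψ).IsIrreducible := by
  obtain ⟨gt, hgt⟩ := hs tr
  obtain ⟨gd, hgd⟩ := hs db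
  refine { exists_pair_ne := ⟨⊥, ⊤, fun h => ?_⟩, eq_bot_or_eq_top := fun U => ?_ }
  · have h1 : (⊥ : Subrepresentation (rho ψ)).toSubmodule =
        (⊤ : Subrepresentation (rho ψ)).toSubmodule := congrArg _ h
    have h2 : dl 0 ∈ (⊥ : Subrepresentation (rho ψ)).toSubmodule := by
      rw [h1]; exact (trivial : dl 0 ∈ (⊤ : Submodule ℂ W))
    exact dl_ne ((Submodule.mem_bot ℂ).mp h2)
  · by_cases hU : ∀ f ∈ U.toSubmodule, f = 0
    · left
      apply Subrepresentation.toSubmodule_injective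
      show U.toSubmodule = ⊥
      exact (Submodule.eq_bot_iff _).mpr hU
    · right
      push Not at hU
      obtain ⟨f, hf, hne⟩ := hU
      have hj : ∃ j, f.1 j ≠ 0 := by
        by_contra hc
        push Not at hc
        exact hne (Subtype.ext (funext hc))
      obtain ⟨j, hj⟩ := hj
      have hmem : ∀ (g : G) (f : W), f ∈ U.toSubmodule → rho ψ g f ∈ U.toSubmodule :=
        fun g f hf => U.apply_mem_toSubmodule g hf
      set f1 := rho ψ (gt ^ (-j).val) f with hf1
      have hf1m : f1 ∈ U.toSubmodule := hmem _ _ hf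
      have hf10 : f1.1 0 = f.1 j := by
        have h : (0 : ZMod 5) - -j = j := by ring
        rw [hf1, rho_gt ψ hgt, ZMod.natCast_zmod_val, h]
      have hd0 : dl 0 ∈ U.toSubmodule := by
        have h1 := avg ψ hgd f1
        have h2 : f1.1 0 • dl 0 ∈ U.toSubmodule := by
          rw [← h1]
          exact U.toSubmodule.add_mem (U.toSubmodule.add_mem (U.toSubmodule.add_mem hf1m
            (hmem _ _ hf1m)) (hmem _ _ (hmem _ _ hf1m))) (hmem _ _ (hmem _ _ (hmem _ _ hf1m)))
        have h3 : f1.1 0 ≠ 0 := by rw [hf10]; exact hj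
        have h4 := U.toSubmodule.smul_mem (f1.1 0)⁻¹ h2
        rwa [smul_smul, inv_mul_cancel₀ h3, one_smul] at h4
      have hdj : ∀ i, dl i ∈ U.toSubmodule := by
        intro i
        have h1 : dl i = rho ψ (gt ^ i.val) (dl 0) := by
          apply Subtype.ext
          funext k
          rw [rho_gt ψ hgt, ZMod.natCast_zmod_val, dl_apply, dl_apply]
          by_cases hk : k = i
          · rw [if_pos hk, if_pos (by rw [hk]; ring)]
          · rw [if_neg hk, if_neg (by intro h; exact hk (sub_eq_zero.mp h))]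
        rw [h1]; exact hmem _ _ hd0
      apply Subrepresentation.toSubmodule_injective
      show U.toSubmodule = ⊤
      rw [eq_top_iff]
      intro k _
      rw [expand k]
      exact U.toSubmodule.sum_mem (fun i _ => U.toSubmodule.smul_mem _ (hdj i))

lemma char_ne : (rho ψ).character ≠ 1 := by
  intro h
  have h1 : (rho ψ).character 1 = 1 := by rw [h]; rfl
  rw [Representation.char_one] at h1
  have h2 : finrank ℂ W = 1 := by exact_mod_cast h1
  obtain ⟨c, hc⟩ := (finrank_eq_one_iff_of_nonzero' (dl 0) dl_ne).mp h2 (dl 1)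
  have h3 : c * (dl 0).1 0 = (dl 1).1 0 := by rw [← hc]; rfl
  have h4 : c * (dl 0).1 1 = (dl 1).1 1 := by rw [← hc]; rfl
  rw [dl_apply, dl_apply] at h3 h4
  have n1 : (1 : ZMod 5) ≠ 0 := by decide
  rw [if_pos rfl, if_neg n1.symm] at h3
  rw [if_neg n1, if_pos rfl] at h4
  have h5 : (15 : ℂ) = 0 := by linear_combination (-1) * h3 - 4 * h4
  norm_num at h5

end rep

/-- the action of a group through `ψ` -/
theorem five_dvd {G : Type} [Group G] [Finite G] (ψ : G →* GG) (K : Subgroup G)
    (hK : ¬ GL4.Marks (rho ψ).character K) : 5 ∣ Nat.card K := by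
  classical
  haveI : Fintype K := Fintype.ofFinite K
  let σ : Representation ℂ K W := (rho ψ).comp K.subtype
  haveI : Invertible (Nat.card K : ℂ) := invertibleOfNonzero (by
    exact_mod_cast (Nat.card_pos (α := K)).ne')
  have h1 := FDRep.average_char_eq_finrank_invariants (FDRep.of σ)
  have h2 : GL4.ip K (rho ψ).character 1 = (finrank ℂ (Representation.invariants σ) : ℂ) := by
    rw [GL4.ip, finsum_eq_sum_of_fintype]
    refine Eq.trans ?_ h1
    congr 1
    refine Finset.sum_congr rfl (fun g _ => ?_)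
    rw [Pi.one_apply, map_one, mul_one]
    rfl
  have h3 : finrank ℂ (Representation.invariants σ) = 0 := by
    by_contra hne
    exact hK (by rw [GL4.Marks, h2]; exact_mod_cast Nat.pos_of_ne_zero hne)
  have h4 : Representation.invariants σ = ⊥ := Submodule.finrank_eq_zero.mp h3
  letI : MulAction K (ZMod 5) :=
    { smul := fun k i => act (ψ k) i
      one_smul := fun i => by show act (ψ 1) i = i; rw [map_one, act_one]
      mul_smul := fun g h i => by
        show act (ψ (g * h : K)) i = act (ψ g) (act (ψ h) i)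
        rw [Subgroup.coe_mul, map_mul, act_mul] }
  have hsm : ∀ (k : K) (i : ZMod 5), k • i = act (ψ k) i := fun _ _ => rfl
  -- the orbit of zero
  let O : Finset (ZMod 5) := Finset.univ.filter (fun i => i ∈ MulAction.orbit K (0 : ZMod 5))
  have hO : ∀ i, i ∈ O ↔ i ∈ MulAction.orbit K (0 : ZMod 5) := by
    intro i; simp [O]
  let f : W := ⟨fun i => 5 * (if i ∈ O then 1 else 0) - (O.card : ℂ), by
    rw [mem_W, Finset.sum_sub_distrib, ← Finset.mul_sum, Finset.sum_ite_mem, Finset.univ_inter]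
    simp [ZMod.card]⟩
  have hf : f ∈ Representation.invariants σ := by
    rw [Representation.mem_invariants]
    intro k
    apply Subtype.ext
    funext i
    show f.1 (act (ψ k)⁻¹ i) = f.1 i
    have h5 : act (ψ k)⁻¹ i ∈ O ↔ i ∈ O := by
      rw [hO, hO]
      have h6 : act (ψ k)⁻¹ i = k⁻¹ • i := by
        rw [hsm, Subgroup.coe_inv, map_inv]
      rw [h6]
      constructor
      · rintro ⟨g, hg⟩
        refine ⟨k * g, ?_⟩
        have hg' : g • (0 : ZMod 5) = k⁻¹ • i := hg
        show (k * g) • (0 : ZMod 5) = i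
        rw [mul_smul, hg', smul_inv_smul]
      · rintro ⟨g, hg⟩
        refine ⟨k⁻¹ * g, ?_⟩
        have hg' : g • (0 : ZMod 5) = i := hg
        show (k⁻¹ * g) • (0 : ZMod 5) = k⁻¹ • i
        rw [mul_smul, hg']
    show 5 * (if act (ψ k)⁻¹ i ∈ O then (1 : ℂ) else 0) - _ = 5 * (if i ∈ O then 1 else 0) - _
    simp only [h5]
  rw [h4, Submodule.mem_bot] at hf
  have hf0 : f.1 0 = 0 := by rw [hf]; rfl
  have h0O : (0 : ZMod 5) ∈ O := (hO 0).mpr (MulAction.mem_orbit_self _)
  have hcard : O.card = 5 := by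
    have h6 : 5 * (if (0 : ZMod 5) ∈ O then (1 : ℂ) else 0) - (O.card : ℂ) = 0 := hf0
    rw [if_pos h0O, mul_one, sub_eq_zero] at h6
    exact_mod_cast h6.symm
  have h7 := MulAction.card_orbit_mul_card_stabilizer_eq_card_group K (0 : ZMod 5)
  rw [Nat.card_eq_fintype_card, ← h7]
  have h8 : Fintype.card (MulAction.orbit K (0 : ZMod 5)) = O.card := Fintype.card_subtype _
  rw [h8.trans hcard]
  exact dvd_mul_right _ _

theorem q5 : GL4.Q5 := by
  intro F _ _ V _ _ _ hV hq
  haveI : Fintype F := Fintype.ofFinite F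
  have e : ZMod 5 ≃+* F := ZMod.ringEquivOfPrime F (by norm_num)
    (by rw [← Nat.card_eq_fintype_card]; exact hq)
  let b : Basis (Fin 2) F V := finBasisOfFinrankEq F V hV
  let ψ : (V ≃ₗ[F] V) ≃* GG :=
    ((LinearMap.GeneralLinearGroup.generalLinearEquiv F V).symm.trans
      (Units.mapEquiv (LinearMap.toMatrixAlgEquiv b).toMulEquiv)).trans
      (Units.mapEquiv (RingEquiv.mapMatrix e.symm).toMulEquiv)
  haveI : Finite V := Module.finite_of_finite F
  haveI : Finite (V ≃ₗ[F] V) := Finite.of_injective (fun g => (g : V → V)) DFunLike.coe_injective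
  exact ⟨(rho ψ.toMonoidHom).character, ⟨W, inferInstance, inferInstance, inferInstance,
    rho ψ.toMonoidHom, irr _ ψ.surjective, rfl⟩, char_ne _, fun K hK => five_dvd _ K hK⟩

end Pool.Agent.Helper41.GL4Q5
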